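import Pool.Agent.H23.BG.TargetsP

/-! Module P_BB of the board brg_modules: the bound of Burgess for all positions. -/

set_option autoImplicit false

open NumberField NumberField.InfinitePlace NumberField.Units
  NumberField.Units.dirichletUnitTheorem MeasureTheory Set Filter Complex
open scoped nonZeroDivisors ENNReal

namespace Pool.Agent.H89.BG

open Pool.Agent.H23.BG
open Pool.Agent.H25.HK Pool.Agent.H23.LB Pool.Agent.H23.LC Pool.Agent.H29.DW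
open Pool.Agent.H28.RC (Rep ft idl)
open Pool.Agent.H29.TC (dvs cq LC Gn MC)

private lemma psi_nonneg (n : ℕ) {N V : ℝ} (hN : 0 ≤ N) (hV : 0 ≤ V) : 0 ≤ Psi n N V := by
  unfold Psi
  split_ifs
  · exact mul_nonneg (Real.rpow_nonneg hV _) (Real.rpow_nonneg hN _)
  · exact mul_nonneg (Real.rpow_nonneg hV _) (Real.rpow_nonneg hN _)

/-- the trivial bound is good enough outside the middle range -/
private lemma psi_low {n : ℕ} (hn : 0 < n) {N N1 V : ℝ} (hN : 1 ≤ N) (hN1 : 1 ≤ N1) (hV : 0 < V)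
    (h : V ≤ N ^ (3 / 8 : ℝ) ∨ N ^ (3 / 4 : ℝ) ≤ V ∨ N ≤ N1) :
    V ≤ N1 ^ (1 / 16 : ℝ) * Psi n N V := by
  have hN0 : 0 < N := by linarith
  have hN10 : 0 < N1 := by linarith
  have hV0 : 0 ≤ V := hV.le
  have hn1 : (1 : ℝ) ≤ n := by exact_mod_cast hn
  obtain ⟨e, he⟩ : ∃ e : ℝ, e = 1 / (16 * (n : ℝ)) := ⟨_, rfl⟩
  have he0 : 0 ≤ e := by rw [he]; positivity
  have he1 : e ≤ 1 / 16 := by
    rw [he]
    apply one_div_le_one_div_of_le (by norm_num)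
    linarith
  have hone : (1 : ℝ) ≤ N1 ^ (1 / 16 : ℝ) := Real.one_le_rpow hN1 (by norm_num)
  have hNe : N ≤ N1 → N ^ e ≤ N1 ^ (1 / 16 : ℝ) := fun hh =>
    (Real.rpow_le_rpow_of_exponent_le hN he1).trans (Real.rpow_le_rpow hN0.le hh (by norm_num))
  unfold Psi
  rw [← he]
  split_ifs with hc
  · -- small `V`
    have hsq : V = V ^ (1 / 2 : ℝ) * V ^ (1 / 2 : ℝ) := by
      rw [← Real.rpow_add hV]
      norm_num
    have hV2 : 0 ≤ V ^ (1 / 2 : ℝ) := Real.rpow_nonneg hV0 _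
    have hcase : V ≤ N ^ (3 / 8 : ℝ) ∨ N ≤ N1 := by
      rcases h with h | h | h
      · exact Or.inl h
      · right
        by_contra hlt
        push Not at hlt
        have h1 : N ^ (1 / 2 : ℝ) < N ^ (3 / 4 : ℝ) :=
          Real.rpow_lt_rpow_of_exponent_lt (by linarith) (by norm_num)
        linarith
      · exact Or.inr h
    rcases hcase with h1 | h1
    · have h2 : V ^ (1 / 2 : ℝ) ≤ N ^ (1 / 4 - e) := by
        calc V ^ (1 / 2 : ℝ) ≤ (N ^ (3 / 8 : ℝ)) ^ (1 / 2 : ℝ) :=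
              Real.rpow_le_rpow hV0 h1 (by norm_num)
          _ = N ^ (3 / 16 : ℝ) := by
              rw [← Real.rpow_mul hN0.le]
              norm_num
          _ ≤ N ^ (1 / 4 - e) := Real.rpow_le_rpow_of_exponent_le hN (by linarith)
      have h3 : 0 ≤ V ^ (1 / 2 : ℝ) * N ^ (1 / 4 - e) :=
        mul_nonneg hV2 (Real.rpow_nonneg hN0.le _)
      calc V = V ^ (1 / 2 : ℝ) * V ^ (1 / 2 : ℝ) := hsq
        _ ≤ V ^ (1 / 2 : ℝ) * N ^ (1 / 4 - e) := mul_le_mul_of_nonneg_left h2 hV2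
        _ = 1 * (V ^ (1 / 2 : ℝ) * N ^ (1 / 4 - e)) := (one_mul _).symm
        _ ≤ N1 ^ (1 / 16 : ℝ) * (V ^ (1 / 2 : ℝ) * N ^ (1 / 4 - e)) :=
            mul_le_mul_of_nonneg_right hone h3
    · have h2 : V ^ (1 / 2 : ℝ) ≤ N ^ (1 / 4 - e) * N ^ e := by
        calc V ^ (1 / 2 : ℝ) ≤ (N ^ (1 / 2 : ℝ)) ^ (1 / 2 : ℝ) :=
              Real.rpow_le_rpow hV0 hc (by norm_num)
          _ = N ^ (1 / 4 : ℝ) := by
              rw [← Real.rpow_mul hN0.le]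
              norm_num
          _ = N ^ (1 / 4 - e) * N ^ e := by
              rw [← Real.rpow_add hN0]
              congr 1
              ring
      have h4 : 0 ≤ N ^ (1 / 4 - e) := Real.rpow_nonneg hN0.le _
      calc V = V ^ (1 / 2 : ℝ) * V ^ (1 / 2 : ℝ) := hsq
        _ ≤ V ^ (1 / 2 : ℝ) * (N ^ (1 / 4 - e) * N ^ e) := mul_le_mul_of_nonneg_left h2 hV2
        _ ≤ V ^ (1 / 2 : ℝ) * (N ^ (1 / 4 - e) * N1 ^ (1 / 16 : ℝ)) :=
            mul_le_mul_of_nonneg_left (mul_le_mul_of_nonneg_left (hNe h1) h4) hV2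
        _ = N1 ^ (1 / 16 : ℝ) * (V ^ (1 / 2 : ℝ) * N ^ (1 / 4 - e)) := by ring
  · -- large `V`
    push Not at hc
    have hcase : N ^ (3 / 4 : ℝ) ≤ V ∨ N ≤ N1 := by
      rcases h with h | h | h
      · exfalso
        have h1 : N ^ (3 / 8 : ℝ) ≤ N ^ (1 / 2 : ℝ) :=
          Real.rpow_le_rpow_of_exponent_le hN (by norm_num)
        linarith
      · exact Or.inl h
      · exact Or.inr h
    have h54 : V ^ (5 / 4 : ℝ) = V * V ^ (1 / 4 : ℝ) := by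
      have : V * V ^ (1 / 4 : ℝ) = V ^ (1 : ℝ) * V ^ (1 / 4 : ℝ) := by rw [Real.rpow_one]
      rw [this, ← Real.rpow_add hV]
      norm_num
    have hNp : 0 ≤ N ^ (-(1 / 8) - e) := Real.rpow_nonneg hN0.le _
    rw [h54]
    rcases hcase with h1 | h1
    · have h2 : N ^ (3 / 16 : ℝ) ≤ V ^ (1 / 4 : ℝ) := by
        calc N ^ (3 / 16 : ℝ) = (N ^ (3 / 4 : ℝ)) ^ (1 / 4 : ℝ) := by
              rw [← Real.rpow_mul hN0.le]
              norm_num
          _ ≤ V ^ (1 / 4 : ℝ) := Real.rpow_le_rpow (Real.rpow_nonneg hN0.le _) h1 (by norm_num)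
      have h3 : 1 ≤ V ^ (1 / 4 : ℝ) * N ^ (-(1 / 8) - e) := by
        calc (1 : ℝ) ≤ N ^ (3 / 16 + (-(1 / 8) - e)) := Real.one_le_rpow hN (by linarith)
          _ = N ^ (3 / 16 : ℝ) * N ^ (-(1 / 8) - e) := Real.rpow_add hN0 _ _
          _ ≤ V ^ (1 / 4 : ℝ) * N ^ (-(1 / 8) - e) := mul_le_mul_of_nonneg_right h2 hNp
      calc V = 1 * (V * 1) := by ring
        _ ≤ N1 ^ (1 / 16 : ℝ) * (V * (V ^ (1 / 4 : ℝ) * N ^ (-(1 / 8) - e))) :=
            mul_le_mul hone (mul_le_mul_of_nonneg_left h3 hV0) (by linarith)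
              (by linarith)
        _ = N1 ^ (1 / 16 : ℝ) * (V * V ^ (1 / 4 : ℝ) * N ^ (-(1 / 8) - e)) := by ring
    · have h2 : N ^ (1 / 8 : ℝ) ≤ V ^ (1 / 4 : ℝ) := by
        calc N ^ (1 / 8 : ℝ) = (N ^ (1 / 2 : ℝ)) ^ (1 / 4 : ℝ) := by
              rw [← Real.rpow_mul hN0.le]
              norm_num
          _ ≤ V ^ (1 / 4 : ℝ) :=
              Real.rpow_le_rpow (Real.rpow_nonneg hN0.le _) hc.le (by norm_num)
      have h3 : 1 ≤ N1 ^ (1 / 16 : ℝ) * (V ^ (1 / 4 : ℝ) * N ^ (-(1 / 8) - e)) := by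
        have e1 : N ^ e * (N ^ (1 / 8 : ℝ) * N ^ (-(1 / 8) - e)) = 1 := by
          rw [← Real.rpow_add hN0, ← Real.rpow_add hN0]
          have : e + (1 / 8 + (-(1 / 8) - e)) = 0 := by ring
          rw [this, Real.rpow_zero]
        calc (1 : ℝ) = N ^ e * (N ^ (1 / 8 : ℝ) * N ^ (-(1 / 8) - e)) := e1.symm
          _ ≤ N1 ^ (1 / 16 : ℝ) * (V ^ (1 / 4 : ℝ) * N ^ (-(1 / 8) - e)) :=
              mul_le_mul (hNe h1) (mul_le_mul_of_nonneg_right h2 hNp)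
                (mul_nonneg (Real.rpow_nonneg hN0.le _) hNp) (by linarith)
      calc V = V * 1 := (mul_one V).symm
        _ ≤ V * (N1 ^ (1 / 16 : ℝ) * (V ^ (1 / 4 : ℝ) * N ^ (-(1 / 8) - e))) :=
            mul_le_mul_of_nonneg_left h3 hV0
        _ = N1 ^ (1 / 16 : ℝ) * (V * V ^ (1 / 4 : ℝ) * N ^ (-(1 / 8) - e)) := by ring

/-- the form of the trivial bound -/
private lemma tv_form {D h E ε : ℝ} (hD : 1 ≤ D) (hh : 1 ≤ h) (hE : 0 < E) :
    D ^ ((1 + ε) / 2) * (h⁻¹ * (E / Real.sqrt D) ^ (1 + ε)) =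
      D ^ (1 / 2 : ℝ) * (E ^ ε * (E / (Real.sqrt D * h))) := by
  have hD0 : 0 < D := by linarith
  have hh0 : 0 < h := by linarith
  have hs : Real.sqrt D = D ^ (1 / 2 : ℝ) := Real.sqrt_eq_rpow D
  have hs0 : 0 < D ^ (1 / 2 : ℝ) := Real.rpow_pos_of_pos hD0 _
  rw [hs, Real.rpow_add (by positivity), Real.rpow_one, Real.div_rpow hE.le hs0.le,
    ← Real.rpow_mul hD0.le]
  have e1 : D ^ ((1 + ε) / 2) = D ^ (1 / 2 : ℝ) * D ^ (1 / 2 * ε) := by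
    rw [← Real.rpow_add hD0]
    congr 1
    ring
  have hp : 0 < D ^ (1 / 2 * ε) := Real.rpow_pos_of_pos hD0 _
  rw [e1]
  field_simp

/-- (BB) -/
theorem pf_P_BB (hCG : U_CG) (hTV : P_TV) (hMR : P_MR) : P_BB := by
  intro n hn ε hε hε1
  obtain ⟨C₁, hC₁, h1⟩ := hTV n hn ε hε hε1
  obtain ⟨C₂, N₀, hC₂, h2⟩ := hMR n hn ε hε hε1
  obtain ⟨N1, hN1⟩ : ∃ N1 : ℝ, N1 = max N₀ 1 := ⟨_, rfl⟩
  have hN11 : 1 ≤ N1 := by rw [hN1]; exact le_max_right _ _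
  have hN10 : N₀ ≤ N1 := by rw [hN1]; exact le_max_left _ _
  have hA0 : 0 ≤ N1 ^ (1 / 16 : ℝ) := Real.rpow_nonneg (by linarith) _
  refine ⟨C₁ * N1 ^ (1 / 16 : ℝ) + C₂, by positivity, ?_⟩
  intro K _ _ hK f hf χ hχ ι _ M hM cp H p B τ₁ hP hB hBm
  obtain ⟨D, hD⟩ : ∃ D : ℝ, D = |(discr K : ℝ)| := ⟨_, rfl⟩
  obtain ⟨N, hN⟩ : ∃ N : ℝ, N = Nf K f := ⟨_, rfl⟩
  obtain ⟨h, hh⟩ : ∃ h : ℝ, h = HH H := ⟨_, rfl⟩
  have hV : Vt K H τ₁ = Real.exp (-τ₁) / (Real.sqrt D * h) := by rw [hD, hh]; rfl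
  have hD1 : 1 ≤ D := by
    rw [hD]
    have h3 : (1 : ℤ) ≤ |discr K| := Int.one_le_abs (discr_ne_zero K)
    exact_mod_cast h3
  have hN1' : 1 ≤ N := by
    rw [hN]
    unfold Nf
    have h3 : Ideal.absNorm f ≠ 0 := by
      intro h4
      exact hf (Ideal.absNorm_eq_zero_iff.1 h4)
    exact_mod_cast Nat.one_le_iff_ne_zero.2 h3
  have hh1 : 1 ≤ h := by
    rw [hh]
    unfold HH
    apply Finset.one_le_prod
    intro v _
    exact one_le_pow₀ (hP.one v)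
  have hcw : 0 ≤ cw K := by unfold cw; positivity
  have hD0 : 0 < D := by linarith
  have hh0 : 0 < h := by linarith
  have hN0 : 0 < N := by linarith
  have hVp : 0 < Vt K H τ₁ := by
    rw [hV]
    have := Real.sqrt_pos.2 hD0
    have := Real.exp_pos (-τ₁)
    positivity
  rw [← hD, ← hN, ← hh]
  have hPs : 0 ≤ Psi n N (Vt K H τ₁) := psi_nonneg n hN0.le hVp.le
  have hB0 : 0 ≤ B := by linarith
  have hBn : 0 ≤ B ^ n := pow_nonneg hB0 n
  have hDh : 0 ≤ D ^ (1 / 2 : ℝ) := Real.rpow_nonneg hD0.le _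
  have hEx : (1 : ℝ) ≤ Real.exp |τ₁| := Real.one_le_exp (abs_nonneg _)
  have hprod : 1 ≤ D * N * h := one_le_mul_of_one_le_of_one_le
    (one_le_mul_of_one_le_of_one_le hD1 hN1') hh1
  by_cases hcase : Vt K H τ₁ ≤ N ^ (3 / 8 : ℝ) ∨ N ^ (3 / 4 : ℝ) ≤ Vt K H τ₁ ∨ N ≤ N1
  · -- trivial bound
    have h3 := h1 K hK ι M hM cp H p B τ₁ (fun c => cg χ (M c)) hP hB hBm
      (fun c x hx => (hCG K f χ (M c) hf (hM.1 c)).2.1 x hx)
    refine h3.trans (ENNReal.ofReal_le_ofReal ?_)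
    rw [← hD, ← hh]
    have e1 : C₁ * B ^ n * (cw K * D ^ ((1 + ε) / 2)) * h⁻¹ *
        (Real.exp (-τ₁) / Real.sqrt D) ^ (1 + ε) =
        C₁ * B ^ n * cw K * (D ^ ((1 + ε) / 2) * (h⁻¹ *
          (Real.exp (-τ₁) / Real.sqrt D) ^ (1 + ε))) := by ring
    rw [e1, tv_form hD1 hh1 (Real.exp_pos _), ← hV]
    have h4 := psi_low hn hN1' hN11 hVp hcase
    have h5 : Real.exp (-τ₁) ^ ε ≤ (D * N * h * Real.exp |τ₁|) ^ ε := by
      apply Real.rpow_le_rpow (Real.exp_pos _).le _ hε.le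
      calc Real.exp (-τ₁) ≤ Real.exp |τ₁| := Real.exp_le_exp.2 (neg_le_abs τ₁)
        _ = 1 * Real.exp |τ₁| := (one_mul _).symm
        _ ≤ D * N * h * Real.exp |τ₁| := mul_le_mul_of_nonneg_right hprod (Real.exp_pos _).le
    have h6 : 0 ≤ (D * N * h * Real.exp |τ₁|) ^ ε := Real.rpow_nonneg (by positivity) _
    calc C₁ * B ^ n * cw K * (D ^ (1 / 2 : ℝ) * (Real.exp (-τ₁) ^ ε * Vt K H τ₁))
        ≤ C₁ * B ^ n * cw K * (D ^ (1 / 2 : ℝ) * ((D * N * h * Real.exp |τ₁|) ^ ε *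
            (N1 ^ (1 / 16 : ℝ) * Psi n N (Vt K H τ₁)))) := by
          refine mul_le_mul_of_nonneg_left (mul_le_mul_of_nonneg_left
            (mul_le_mul h5 h4 hVp.le h6) hDh) (by positivity)
      _ = (C₁ * N1 ^ (1 / 16 : ℝ)) * (B ^ n * cw K * D ^ (1 / 2 : ℝ) *
            (D * N * h * Real.exp |τ₁|) ^ ε * Psi n N (Vt K H τ₁)) := by ring
      _ ≤ (C₁ * N1 ^ (1 / 16 : ℝ) + C₂) * (B ^ n * cw K * D ^ (1 / 2 : ℝ) *
            (D * N * h * Real.exp |τ₁|) ^ ε * Psi n N (Vt K H τ₁)) :=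
          mul_le_mul_of_nonneg_right (by linarith) (by positivity)
      _ = (C₁ * N1 ^ (1 / 16 : ℝ) + C₂) * B ^ n * cw K * D ^ (1 / 2 : ℝ) *
            (D * N * h * Real.exp |τ₁|) ^ ε * Psi n N (Vt K H τ₁) := by ring
  · -- middle range
    push Not at hcase
    obtain ⟨h3, h4, h5⟩ := hcase
    have h6 := h2 K hK f hf (by rw [← hN]; linarith) (by rw [← hN]; linarith) χ hχ ι M hM cp H p
      B (Vt K H τ₁) τ₁ hP hB hBm rfl (by rw [← hN]; exact h3.le) (by rw [← hN]; exact h4.le)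
    refine h6.trans (ENNReal.ofReal_le_ofReal ?_)
    rw [← hD, ← hN, ← hh]
    have h7 : (D * N * h) ^ ε ≤ (D * N * h * Real.exp |τ₁|) ^ ε := by
      apply Real.rpow_le_rpow (by positivity) _ hε.le
      exact le_mul_of_one_le_right (by positivity) hEx
    have h8 : C₂ ≤ C₁ * N1 ^ (1 / 16 : ℝ) + C₂ := by
      have := mul_nonneg hC₁ hA0
      linarith
    have h9 : 0 ≤ (D * N * h) ^ ε := Real.rpow_nonneg (by positivity) _
    gcongr

end Pool.Agent.H89.BG
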